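import Pool.Agent.K.MP_abed8b_co.C6

set_option autoImplicit false

namespace Pool.Agent.Results.MP_abed8b_co.Colourings
open Pool.Agent.P.MP_abed8b_co

/-- A bipartite graph whose chromatic polynomial, defined by counting colourings, is not positive
at some real point above the maximum degree on one side. -/
theorem result :
    ∃ (V : Type) (_ : Finite V) (G : SimpleGraph V) (A B : Set V) (P : Polynomial ℝ) (q : ℝ),
      Disjoint A B ∧ A ∪ B = Set.univ ∧
      (∀ u v, G.Adj u v → (u ∈ A ∧ v ∈ B) ∨ (u ∈ B ∧ v ∈ A)) ∧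
      (∀ k : ℕ, P.eval (k : ℝ) =
        (Nat.card {σ : V → Fin k // ∀ u v, G.Adj u v → σ u ≠ σ v} : ℝ)) ∧
      0 < q ∧ (∀ v ∈ A, ((G.neighborSet v).ncard : ℝ) < q) ∧ P.eval q ≤ 0 := by
  classical
  have h := not_conj
  unfold Conj at h
  push Not at h
  obtain ⟨V, _, _, G, _, A, dA, dB, h1, h2, h3, q, h4, h5⟩ := h
  obtain ⟨P, hP⟩ : ∃ P : Polynomial ℝ, ∀ x : ℝ, P.eval x = chrom G x :=
    ⟨∑ S ∈ G.edgeFinset.powerset, Polynomial.C ((-1 : ℝ) ^ S.card) * Polynomial.X ^
      Nat.card (SimpleGraph.fromEdgeSet (S : Set (Sym2 V))).ConnectedComponent, fun x => by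
        simp only [Polynomial.eval_finsetSum, Polynomial.eval_mul, Polynomial.eval_C,
          Polynomial.eval_pow, Polynomial.eval_X, chrom]⟩
  have hk : ∀ k : ℕ, P.eval (k : ℝ) =
      (Nat.card {σ : V → Fin k // ∀ u v, G.Adj u v → σ u ≠ σ v} : ℝ) := fun k => by
    rw [hP, chrom_nat, Finset.sum_boole, Nat.card_eq_fintype_card, Fintype.card_subtype]
  have hd : ∀ v, (G.neighborSet v).ncard = G.degree v := fun v => by
    rw [← SimpleGraph.card_neighborFinset_eq_degree, ← Set.ncard_coe_finset,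
      SimpleGraph.coe_neighborFinset]
  have q0 : 0 < q := lt_of_le_of_lt (Nat.cast_nonneg _) h4
  have adj : ∀ u v, G.Adj u v → (u ∈ A ∧ v ∈ Aᶜ) ∨ (u ∈ Aᶜ ∧ v ∈ A) := fun u v e => by
    have := h1 u v e
    simp only [Set.mem_compl_iff]
    tauto
  rcases le_total dA dB with e | e
  · rw [min_eq_left e] at h4
    refine ⟨V, inferInstance, G, A, Aᶜ, P, q, disjoint_compl_right, Set.union_compl_self A, adj, hk,
      q0, fun v hv => lt_of_le_of_lt ?_ h4, by rwa [hP]⟩
    rw [hd]; exact_mod_cast h2 v hv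
  · rw [min_eq_right e] at h4
    refine ⟨V, inferInstance, G, Aᶜ, A, P, q, disjoint_compl_left, Set.compl_union_self A,
      fun u v e => (adj u v e).symm, hk, q0, fun v hv => lt_of_le_of_lt ?_ h4, by rwa [hP]⟩
    rw [hd]; exact_mod_cast h3 v hv

end Pool.Agent.Results.MP_abed8b_co.Colourings
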